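import Pool.Agent.Helper2.UN.RedDefs
import Pool.Agent.Helper93.SR.Rat

/-!
MP_b8862a_ag, unitary theorem, block SR: ideals, symmetries and simplicity for Lie algebras of
operators with the form free structure `Red` (adaptation of `Helper93/SR/{Ideals,Str,Rat}`).
-/

set_option linter.unusedSimpArgs false
set_option linter.unusedSectionVars false

open Module

namespace UN

section sym
open MTP

variable {K : Type*} [Field K] {V : Type*} [AddCommGroup V] [Module K V] [FiniteDimensional K V]
variable {L M I I' : Submodule K (Module.End K V)}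

lemma Red.orth_comm (hL : Red L) (hI : IsId L I) {x y : Module.End K V} (hx : x ∈ I)
    (hy : y ∈ orth L I) : x * y = y * x := by
  rw [← sub_eq_zero]
  apply hL.nd I hI
  · have h1 := hI.2 y hy.1 x hx
    have h2 := I.neg_mem h1
    rwa [neg_sub] at h2
  · exact (orth_isId hL.br hI).2 x (hI.1 hx) y hy

lemma Red.sup_orth (hL : Red L) (hI : IsId L I) {z : Module.End K V} (hz : z ∈ L) :
    ∃ x ∈ I, z - x ∈ orth L I := by
  let Φ : I →ₗ[K] Module.Dual K I :=
    { toFun := fun a =>
        { toFun := fun b => LinearMap.trace K V ((a : Module.End K V) * (b : Module.End K V))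
          map_add' := by intro b c; simp [mul_add]
          map_smul' := by intro c b; simp }
      map_add' := by intro a b; ext c; simp [add_mul]
      map_smul' := by intro c a; ext b; simp }
  have hinj : Function.Injective Φ := by
    rw [← LinearMap.ker_eq_bot, LinearMap.ker_eq_bot']
    intro a ha
    apply Subtype.ext
    apply hL.nd I hI _ a.2
    refine ⟨hI.1 a.2, fun y hy => ?_⟩
    have := congrArg (fun f : Module.Dual K I => f ⟨y, hy⟩) ha
    exact this
  have hsurj : Function.Surjective Φ :=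
    (LinearMap.injective_iff_surjective_of_finrank_eq_finrank
      (Subspace.dual_finrank_eq (K := K) (V := I)).symm).mp hinj
  let F : Module.Dual K I :=
    { toFun := fun b => LinearMap.trace K V (z * (b : Module.End K V))
      map_add' := by intro b c; simp [mul_add]
      map_smul' := by intro c b; simp }
  obtain ⟨a, ha⟩ := hsurj F
  refine ⟨a, a.2, L.sub_mem hz (hI.1 a.2), fun y hy => ?_⟩
  have := congrArg (fun f : Module.Dual K I => f ⟨y, hy⟩) ha
  have h1 : LinearMap.trace K V ((a : Module.End K V) * y) = LinearMap.trace K V (z * y) := this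
  rw [sub_mul, map_sub, h1, sub_self]

/-- SR1 (as `IrrSymp.sq_dich`). -/
theorem Red.sq_dich [CharZero K] (hL : Red L) (hM : IsId L M) {s w : Module.End K V}
    (hs : s ∈ L) (hw : ∀ x ∈ L, w * x = x * w) {c : K} (hss : s * s = c • 1 + w * s) :
    s ∈ M ∨ s ∈ orth L M := by
  obtain ⟨a, ha, hb⟩ := hL.sup_orth hM hs
  generalize hbdef : s - a = b at hb
  have hsab : s = a + b := by rw [← hbdef]; abel
  have hN := orth_isId hL.br hM
  have hab := hL.orth_comm hM ha hb
  have hcen : ∀ z ∈ M, ∀ z' ∈ orth L M, (z * a - a * z) * (z' * b - b * z') = 0 := by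
    intro z hz z' hz'
    have c1 := hL.orth_comm hM hz hz'
    have c2 := hL.orth_comm hM hz hb
    have c3 := hL.orth_comm hM ha hz'
    have w1 := hw z (hM.1 hz)
    have w2 := hw z' hz'.1
    -- the square of `s`
    have h1 : a * a + (2 : K) • (a * b) + b * b = c • 1 + w * (a + b) := by
      rw [← hsab, ← hss, hsab]
      simp only [add_mul, mul_add]
      rw [← hab]
      module
    -- bracket with `z`
    have h2 : (z * (a * a) - a * a * z) + (2 : K) • ((z * a - a * z) * b) =
        w * (z * a - a * z) := by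
      have e1 := congrArg (fun y => z * y - y * z) h1
      simp only [mul_add, add_mul, mul_smul_comm, smul_mul_assoc, mul_one, one_mul] at e1
      have e2 : z * (b * b) = b * b * z := by
        calc z * (b * b) = (z * b) * b := by rw [mul_assoc]
          _ = b * z * b := by rw [c2]
          _ = b * (z * b) := by rw [mul_assoc]
          _ = _ := by rw [c2, mul_assoc]
      have e3 : a * b * z = a * z * b := by rw [mul_assoc, ← c2, mul_assoc]
      have e4 : z * (w * a) = w * (z * a) := by rw [← mul_assoc, ← w1, mul_assoc]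
      have e5 : z * (w * b) = w * b * z := by rw [← mul_assoc, ← w1, mul_assoc, c2, mul_assoc]
      rw [e2, e3, e4, e5] at e1
      have e6 : (z * (a * a) - a * a * z) + (2 : K) • ((z * a - a * z) * b) =
          (z * (a * a) + (2 : K) • (z * (a * b)) + b * b * z -
            (a * a * z + (2 : K) • (a * z * b) + b * b * z)) := by
        rw [sub_mul, mul_assoc z a b]
        module
      rw [e6, e1, mul_sub, mul_assoc w a z]
      abel
    have h3 := congrArg (fun y => z' * y - y * z') h2
    simp only [mul_add, add_mul, mul_smul_comm, smul_mul_assoc] at h3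
    have e4 : z' * (z * (a * a) - a * a * z) = (z * (a * a) - a * a * z) * z' := by
      have k1 : z' * a = a * z' := c3.symm
      have k2 : z' * z = z * z' := c1.symm
      have k3 : z' * (a * a) = a * a * z' := by rw [← mul_assoc, k1, mul_assoc, k1, mul_assoc]
      rw [mul_sub, sub_mul, ← mul_assoc z', k2, mul_assoc z z', k3, ← mul_assoc z' (a * a) z, k3,
        mul_assoc (a * a) z' z, k2]
      simp only [mul_assoc]
    have e7 : z' * (z * a - a * z) = (z * a - a * z) * z' := by
      rw [mul_sub, sub_mul, ← mul_assoc, ← c1, mul_assoc, ← c3, ← mul_assoc, ← mul_assoc, ← c3,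
        mul_assoc a z' z, ← c1]
      simp only [mul_assoc]
    have e5 : z' * ((z * a - a * z) * b) = (z * a - a * z) * (z' * b) := by
      rw [← mul_assoc, e7, mul_assoc]
    have e8 : z' * (w * (z * a - a * z)) - w * (z * a - a * z) * z' = 0 := by
      rw [← mul_assoc, ← w2, mul_assoc, e7, mul_assoc, sub_self]
    rw [e4, e5, e8] at h3
    have e6 : (z * a - a * z) * (z' * b - b * z') =
        (2 : K)⁻¹ • ((z * (a * a) - a * a * z) * z' + (2 : K) • ((z * a - a * z) * (z' * b)) -
          ((z * (a * a) - a * a * z) * z' + (2 : K) • ((z * a - a * z) * b * z'))) := by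
      have : (z * (a * a) - a * a * z) * z' + (2 : K) • ((z * a - a * z) * (z' * b)) -
          ((z * (a * a) - a * a * z) * z' + (2 : K) • ((z * a - a * z) * b * z')) =
          (2 : K) • ((z * a - a * z) * (z' * b - b * z')) := by
        rw [mul_sub (z * a - a * z), ← mul_assoc (z * a - a * z) b z']
        module
      rw [this, smul_smul, inv_mul_cancel₀ two_ne_zero, one_smul]
    rw [e6, h3, smul_zero]
  by_cases h : ∃ z ∈ M, z * a - a * z ≠ 0
  · obtain ⟨z, hz, hza⟩ := h
    left
    have hb0 : b = 0 := by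
      apply hL.cen b hb.1
      intro y hy
      obtain ⟨y1, hy1, hy2⟩ := hL.sup_orth hM hy
      have k1 : b * y1 = y1 * b := (hL.orth_comm hM hy1 hb).symm
      have k2 : b * (y - y1) = (y - y1) * b := by
        have h1 := hL.star M hM _ (hM.2 z (hM.1 hz) a ha) _ (hN.2 _ hy2.1 b hb)
          (hcen z hz _ hy2)
        rcases h1 with h1 | h1
        · exact absurd h1 hza
        · exact (sub_eq_zero.mp h1).symm
      have e : y = y1 + (y - y1) := by abel
      rw [e, mul_add, add_mul, k1, k2]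
    rw [hsab, hb0, add_zero]; exact ha
  · push Not at h
    right
    have ha0 : a = 0 := by
      apply hL.cen a (hM.1 ha)
      intro y hy
      obtain ⟨y1, hy1, hy2⟩ := hL.sup_orth hM hy
      have k1 : a * y1 = y1 * a := (sub_eq_zero.mp (h y1 hy1)).symm
      have k2 : a * (y - y1) = (y - y1) * a := hL.orth_comm hM ha hy2
      have e : y = y1 + (y - y1) := by abel
      rw [e, mul_add, add_mul, k1, k2]
    rw [hsab, ha0, zero_add]; exact hb

/-- SR2 (as `IrrSymp.mem_orth_iff`). -/
theorem Red.mem_orth_iff [CharZero K] (hL : Red L) (hM : IsId L M) {z : Module.End K V}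
    (hz : z ∈ L) : z ∈ orth L M ↔ ∀ x ∈ M, x * z = z * x := by
  constructor
  · intro h x hx
    exact hL.orth_comm hM hx h
  · intro h
    obtain ⟨a, ha, hb⟩ := hL.sup_orth hM hz
    have ha0 : a = 0 := by
      apply hL.cen a (hM.1 ha)
      intro y hy
      obtain ⟨y1, hy1, hy2⟩ := hL.sup_orth hM hy
      have k2 : a * (y - y1) = (y - y1) * a := hL.orth_comm hM ha hy2
      have k1 : a * y1 = y1 * a := by
        have h1 : (z - a) * y1 = y1 * (z - a) := (hL.orth_comm hM hy1 hb).symm
        have h2 := h y1 hy1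
        rw [sub_mul, mul_sub, h2] at h1
        exact sub_right_injective h1
      have e : y = y1 + (y - y1) := by abel
      rw [e, mul_add, add_mul, k1, k2]
    rw [ha0, sub_zero] at hb
    exact hb

/-- There are finitely many minimal ideals. -/
lemma Red.finite_min [CharZero K] (hL : Red L) :
    Finite {I : Submodule K (Module.End K V) // IsMin L I} := by
  classical
  have hx : ∀ I : {I : Submodule K (Module.End K V) // IsMin L I},
      ∃ x ∈ I.1, x ≠ 0 := fun I => Submodule.exists_mem_ne_zero_of_ne_bot I.2.2.1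
  choose x hx hx0 using hx
  have hli : LinearIndependent K x := by
    rw [linearIndependent_iff']
    intro s g hs i hi
    have h1 : g i • x i = - ∑ j ∈ s.erase i, g j • x j := by
      rw [← Finset.add_sum_erase s _ hi] at hs
      exact eq_neg_of_add_eq_zero_left hs
    have h2 : g i • x i ∈ orth L i.1 := by
      rw [hL.mem_orth_iff i.2.1 (L.smul_mem _ (i.2.1.1 (hx i)))]
      intro y hy
      rw [h1, mul_neg, neg_mul, Finset.mul_sum, Finset.sum_mul]
      congr 1
      apply Finset.sum_congr rfl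
      intro j hj
      have hij : i.1 ≠ j.1 := by
        intro h
        exact (Finset.mem_erase.mp hj).1 (Subtype.ext h).symm
      rw [mul_smul_comm, smul_mul_assoc, i.2.comm j.2 hij hy (hx j)]
    have h3 := hL.nd i.1 i.2.1 _ (i.1.smul_mem _ (hx i)) h2
    exact (smul_eq_zero.mp h3).resolve_right (hx0 i)
  exact hli.finite

/-- An element commuting with all minimal ideals is zero. -/
lemma Red.zero_of_comm_min [CharZero K] (hL : Red L) {z : Module.End K V} (hz : z ∈ L)
    (h : ∀ I, IsMin L I → ∀ x ∈ I, x * z = z * x) : z = 0 := by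
  let C : Submodule K (Module.End K V) :=
    { carrier := {z | z ∈ L ∧ ∀ I, IsMin L I → ∀ x ∈ I, x * z = z * x}
      add_mem' := by
        rintro a b ⟨ha, ha'⟩ ⟨hb, hb'⟩
        refine ⟨L.add_mem ha hb, fun I hI x hx => ?_⟩
        rw [mul_add, add_mul, ha' I hI x hx, hb' I hI x hx]
      zero_mem' := ⟨L.zero_mem, fun I hI x hx => by rw [mul_zero, zero_mul]⟩
      smul_mem' := by
        rintro c a ⟨ha, ha'⟩
        refine ⟨L.smul_mem c ha, fun I hI x hx => ?_⟩
        rw [mul_smul_comm, smul_mul_assoc, ha' I hI x hx] }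
  have hC : IsId L C := by
    refine ⟨fun a ha => ha.1, ?_⟩
    rintro w hw a ⟨ha, ha'⟩
    refine ⟨hL.br w hw a ha, fun I hI x hx => ?_⟩
    have h1 := ha' I hI x hx
    have h2 := ha' I hI _ (hI.1.2 w hw x hx)
    have h3 : x * (w * a - a * w) - (w * a - a * w) * x =
        w * (x * a - a * x) - (x * a - a * x) * w - ((w * x - x * w) * a - a * (w * x - x * w)) := by
      simp only [mul_sub, sub_mul, mul_assoc]
      abel
    rw [← sub_eq_zero, h3, h1, h2]
    simp
  by_contra hz0
  have hC0 : C ≠ ⊥ := by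
    intro hb
    have : z ∈ C := ⟨hz, h⟩
    rw [hb, Submodule.mem_bot] at this
    exact hz0 this
  obtain ⟨I, hIC, hI, hI0, hImin⟩ := exists_min_ideal hC hC0
  apply hI0
  rw [eq_bot_iff]
  intro x hx
  rw [Submodule.mem_bot]
  apply hL.nd I hI x hx
  rw [hL.mem_orth_iff hI (hI.1 hx)]
  intro y hy
  exact (hIC hx).2 I ⟨hI, hI0, hImin⟩ y hy

/-- The symmetries act transitively on the minimal ideals. -/
lemma Red.min_trans (hL : Red L) {T : Set (Module.End K V ≃+* Module.End K V)}
    (hT : ∀ τ ∈ T, Tw L τ) (hS : TSmp L T) (hmul : ∀ τ ∈ T, ∀ τ' ∈ T, τ'.trans τ ∈ T)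
    (hone : RingEquiv.refl _ ∈ T) (hI : IsMin L I) (hI' : IsMin L I') :
    ∃ τ ∈ T, ∀ y, y ∈ I' ↔ τ.symm y ∈ I := by
  by_contra hcon
  push Not at hcon
  let M : Submodule K (Module.End K V) := Submodule.span K {y | ∃ τ ∈ T, τ.symm y ∈ I}
  have hmin : ∀ τ ∈ T, ∃ I1, IsMin L I1 ∧ ∀ y, y ∈ I1 ↔ τ.symm y ∈ I := by
    intro τ hτ
    obtain ⟨σ, hσ⟩ := (hT τ hτ).semi
    exact ⟨imT τ hσ I, hI.im (hT τ hτ).mem hσ, fun y => Iff.rfl⟩
  have hM : IsId L M := by
    constructor
    · rw [Submodule.span_le]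
      rintro y ⟨τ, hτ, hy⟩
      obtain ⟨I1, h1, h2⟩ := hmin τ hτ
      exact h1.1.1 ((h2 y).mpr hy)
    · intro x hx y hy
      refine Submodule.span_induction ?_ ?_ ?_ ?_ hy
      · rintro z ⟨τ, hτ, hz⟩
        obtain ⟨I1, h1, h2⟩ := hmin τ hτ
        exact Submodule.subset_span ⟨τ, hτ, (h2 _).mp (h1.1.2 x hx z ((h2 z).mpr hz))⟩
      · simp
      · intro u v _ _ hu hv
        have e : x * (u + v) - (u + v) * x = (x * u - u * x) + (x * v - v * x) := by
          rw [mul_add, add_mul]; abel
        rw [e]; exact Submodule.add_mem _ hu hv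
      · intro c u _ hu
        rw [mul_smul_comm, smul_mul_assoc, ← smul_sub]
        exact Submodule.smul_mem _ _ hu
  rcases hS M hM (by
    intro τ hτ y hy
    obtain ⟨σ, hσ⟩ := (hT τ hτ).semi
    refine Submodule.span_induction ?_ ?_ ?_ ?_ hy
    · rintro z ⟨τ', hτ', hz⟩
      apply Submodule.subset_span
      refine ⟨τ'.trans τ, hmul τ hτ τ' hτ', ?_⟩
      change τ'.symm (τ.symm (τ z)) ∈ I
      rw [RingEquiv.symm_apply_apply]
      exact hz
    · rw [map_zero]; exact Submodule.zero_mem _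
    · intro u v _ _ hu hv
      rw [map_add]; exact Submodule.add_mem _ hu hv
    · intro c u _ hu
      rw [hσ]; exact Submodule.smul_mem _ _ hu) with h | h
  · apply hI.2.1
    rw [eq_bot_iff, ← h]
    intro z hz
    exact Submodule.subset_span ⟨_, hone, hz⟩
  · -- everything commutes with `I'`
    apply hI'.2.1
    rw [eq_bot_iff]
    intro x hx
    rw [Submodule.mem_bot]
    apply hL.cen x (hI'.1.1 hx)
    intro y hy
    rw [← h] at hy
    refine Submodule.span_induction ?_ ?_ ?_ ?_ hy
    · rintro z ⟨τ, hτ, hz⟩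
      obtain ⟨I1, h1, h2⟩ := hmin τ hτ
      apply hI'.comm h1 _ hx ((h2 z).mpr hz)
      rintro rfl
      obtain ⟨y, hy⟩ := hcon τ hτ
      rcases hy with ⟨h3, h4⟩ | ⟨h3, h4⟩
      · exact h4 ((h2 y).mp h3)
      · exact h3 ((h2 y).mpr h4)
    · rw [mul_zero, zero_mul]
    · intro u v _ _ hu hv
      rw [mul_add, add_mul, hu, hv]
    · intro c u _ hu
      rw [mul_smul_comm, smul_mul_assoc, hu]

/-- A square zero element lies in a minimal ideal. -/
lemma Red.exists_min_mem [CharZero K] (hL : Red L) {N : Module.End K V} (hN : N ∈ L)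
    (hNN : N * N = 0) (hN0 : N ≠ 0) : ∃ I, IsMin L I ∧ N ∈ I := by
  by_contra hcon
  push Not at hcon
  apply hN0
  apply hL.zero_of_comm_min hN
  intro I hI x hx
  have h1 := (hL.sq_dich hI.1 hN (w := 0) (fun x _ => by rw [zero_mul, mul_zero]) (c := 0)
    (by rw [hNN, zero_smul, zero_mul, add_zero])).resolve_left (hcon I hI)
  exact (hL.mem_orth_iff hI.1 hN).mp h1 x hx

/-- SR3 (as `IrrSymp.smp_of_dense`). -/
theorem Red.smp_of_dense [CharZero K] (hL : Red L)
    {T : Set (Module.End K V ≃+* Module.End K V)}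
    (hT : ∀ τ ∈ T, Tw L τ) (hS : TSmp L T) (hmul : ∀ τ ∈ T, ∀ τ' ∈ T, τ'.trans τ ∈ T)
    (hone : RingEquiv.refl _ ∈ T) (hinv : ∀ τ ∈ T, τ.symm ∈ T)
    (hd : ∀ τ ∈ T, ∀ E : Finset (Module.End K V), ∃ τ' ∈ T, (∀ x ∈ E, τ' x = τ x) ∧
      ∃ N ∈ L, N * N = 0 ∧ N ≠ 0 ∧ τ' N = N) : Smp L := by
  classical
  have hfin := hL.finite_min
  let X := {I : Submodule K (Module.End K V) // IsMin L I}
  let H : Subgroup (Equiv.Perm X) :=
    { carrier := {ρ | ∃ τ ∈ T, ∀ (I : X) (y : Module.End K V), y ∈ (ρ I).1 ↔ τ.symm y ∈ I.1}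
      one_mem' := ⟨_, hone, fun I y => Iff.rfl⟩
      mul_mem' := by
        rintro ρ ρ' ⟨τ, hτ, h⟩ ⟨τ', hτ', h'⟩
        refine ⟨τ'.trans τ, hmul τ hτ τ' hτ', fun I y => ?_⟩
        rw [Equiv.Perm.mul_apply, h, h']
        rfl
      inv_mem' := by
        rintro ρ ⟨τ, hτ, h⟩
        refine ⟨τ.symm, hinv τ hτ, fun I y => ?_⟩
        have h1 := h (ρ⁻¹ I) (τ y)
        have h0 : ρ (ρ⁻¹ I) = I := by
          rw [← Equiv.Perm.mul_apply, mul_inv_cancel, Equiv.Perm.one_apply]
        rw [RingEquiv.symm_apply_apply, h0] at h1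
        rw [RingEquiv.symm_symm]
        exact h1.symm }
  have hperm : ∀ τ ∈ T, ∃ ρ ∈ H, ∀ (I : X) (y : Module.End K V),
      y ∈ (ρ I).1 ↔ τ.symm y ∈ I.1 := by
    intro τ hτ
    obtain ⟨σ, hσ⟩ := (hT τ hτ).semi
    obtain ⟨σ', hσ'⟩ := (hT _ (hinv τ hτ)).semi
    let ρ : Equiv.Perm X :=
      { toFun := fun I => ⟨imT τ hσ I.1, I.2.im (hT τ hτ).mem hσ⟩
        invFun := fun I => ⟨imT τ.symm hσ' I.1, I.2.im (hT _ (hinv τ hτ)).mem hσ'⟩
        left_inv := by
          intro I
          apply Subtype.ext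
          ext y
          change τ.symm (τ.symm.symm y) ∈ I.1 ↔ _
          rw [RingEquiv.symm_symm, RingEquiv.symm_apply_apply]
        right_inv := by
          intro I
          apply Subtype.ext
          ext y
          change τ.symm.symm (τ.symm y) ∈ I.1 ↔ _
          rw [RingEquiv.symm_symm, RingEquiv.apply_symm_apply] }
    exact ⟨ρ, ⟨τ, hτ, fun I y => Iff.rfl⟩, fun I y => Iff.rfl⟩
  have htrans : ∀ I J : X, ∃ ρ ∈ H, ρ I = J := by
    intro I J
    obtain ⟨τ, hτ, h⟩ := hL.min_trans hT hS hmul hone I.2 J.2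
    obtain ⟨ρ, hρ, h'⟩ := hperm τ hτ
    refine ⟨ρ, hρ, Subtype.ext ?_⟩
    ext y
    rw [h', h]
  have hx : ∀ I : X, ∃ x ∈ I.1, x ≠ 0 := fun I => Submodule.exists_mem_ne_zero_of_ne_bot I.2.2.1
  choose x hx hx0 using hx
  have hX : ∀ I J : X, I = J := by
    by_contra hcon
    push Not at hcon
    obtain ⟨A, B, hAB⟩ := hcon
    obtain ⟨ρ, ⟨τ, hτ, hρ⟩, hfix⟩ := exists_derangement H htrans hAB
    have := Fintype.ofFinite X
    obtain ⟨τ', hτ', hE, N, hN, hNN, hN0, hτN⟩ := hd τ hτ (Finset.univ.image x)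
    obtain ⟨I, hI, hNI⟩ := hL.exists_min_mem hN hNN hN0
    obtain ⟨ρ', -, hρ'⟩ := hperm τ' hτ'
    apply hfix ⟨I, hI⟩
    have h1 : ρ' ⟨I, hI⟩ = ⟨I, hI⟩ := by
      apply Subtype.ext
      apply (ρ' ⟨I, hI⟩).2.eq_of_mem hI (x := N) _ hNI hN0
      rw [hρ']
      have : τ'.symm N = N := by rw [RingEquiv.symm_apply_eq]; exact hτN.symm
      rw [this]; exact hNI
    refine Eq.trans ?_ h1
    apply Subtype.ext
    have h2 : τ' (x ⟨I, hI⟩) = τ (x ⟨I, hI⟩) :=
      hE _ (Finset.mem_image_of_mem _ (Finset.mem_univ _))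
    apply (ρ ⟨I, hI⟩).2.eq_of_mem (ρ' ⟨I, hI⟩).2 (x := τ (x ⟨I, hI⟩))
    · rw [hρ, RingEquiv.symm_apply_apply]; exact hx _
    · rw [hρ', ← h2, RingEquiv.symm_apply_apply]; exact hx _
    · intro h
      apply hx0 ⟨I, hI⟩
      have := congrArg τ.symm h
      simpa using this
  intro M hM hMi
  by_cases hM0 : M = ⊥
  · exact Or.inl hM0
  · right
    obtain ⟨I, hIM, hI⟩ := exists_min_ideal ⟨hM, hMi⟩ hM0
    rcases hS I hI.1 (by
      intro τ hτ y hy
      obtain ⟨ρ, -, hρ⟩ := hperm τ hτ
      have h1 := hX (ρ ⟨I, hI⟩) ⟨I, hI⟩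
      have h2 : τ y ∈ (ρ ⟨I, hI⟩).1 := by
        rw [hρ, RingEquiv.symm_apply_apply]; exact hy
      rw [h1] at h2
      exact h2) with h | h
    · exact absurd h hI.2.1
    · exact le_antisymm hM (h ▸ hIM)

end sym

end UN
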