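import Pool.Agent.Helper40.TR.B45
import Pool.Agent.Helper2.UN.CDefs

/-!
MP_b8862a_ag, unitary theorem, block LB: all matrix units are in `L` if every coroot takes the
value one on exactly one weight.
-/

open Module LieModule LieAlgebra LieAlgebra.IsKilling

attribute [local instance 100] LieRing.ofAssociativeRing

namespace UN

section lie

open MTP MTP.MF Pool.Agent.Helper54.MT

variable {K : Type*} [Field K] [CharZero K] [IsAlgClosed K] {V : Type*} [AddCommGroup V]
  [Module K V] [FiniteDimensional K V]

section module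
variable {L : Type*} [LieRing L] [LieAlgebra K L] [FiniteDimensional K L] [IsKilling K L]
  {H : LieSubalgebra K L} [H.IsCartanSubalgebra]
  [LieRingModule L V] [LieModule K L V] {I : Type*} [Fintype I] (B : WB (V := V) H I)

omit [Fintype I] in
/-- A root vector of `-α` kills the weight vectors with value different from one. -/
lemma f_zero (hsq : ∀ (α : H.root) (x : L), x ∈ rootSpace H α.1 →
      toEnd K L V x * toEnd K L V x = 0) {α : H.root} {e f : L}
    (ht : IsSl2Triple ((coroot α.1 : H) : L) e f) (hf : f ∈ rootSpace H (-α.1)) {i : I}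
    (hi : B.w i (coroot α.1) ≠ 1) : ⁅f, B.v i⁆ = 0 := by
  have h2 := TR.B45.h_f K ht (TR.B45.lie_lie_zero_neg hsq hf) (B.v i)
  have e2 : ⁅((coroot α.1 : H) : L), ⁅f, B.v i⁆⁆ = (-2 + B.w i (coroot α.1)) • ⁅f, B.v i⁆ := by
    rw [leibniz_lie, ht.lie_h_f_nsmul, B.lie_v, neg_lie, two_nsmul, add_lie, lie_smul, add_smul,
      neg_smul, two_smul]
  have f2 : (B.w i (coroot α.1) - 1) • ⁅f, B.v i⁆ = 0 := by
    rw [e2] at h2
    rw [show B.w i (coroot α.1) - 1 = (-2 + B.w i (coroot α.1)) + 1 by ring, add_smul, h2,
      one_smul, neg_add_cancel]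
  rcases smul_eq_zero.mp f2 with h | h
  · exact absurd (sub_eq_zero.mp h) hi
  · exact h

open Classical in
/-- The matrix unit as an element of `L`. -/
lemma exists_unit (hsq : ∀ (α : H.root) (x : L), x ∈ rootSpace H α.1 →
      toEnd K L V x * toEnd K L V x = 0)
    (hone : ∀ α : H.root,
      (Finset.univ.filter (fun i => B.w i (coroot α.1) = 1)).card = 1)
    {i j : I} {α : H.root} (hi : B.w i (coroot α.1) = 1) (hj : B.w j (coroot α.1) = -1) :
    ∃ x : L, ⁅x, B.v i⁆ = B.v j ∧ ∀ k, k ≠ i → ⁅x, B.v k⁆ = 0 := by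
  obtain ⟨e, f, ht, he, hf⟩ := exists_triple α
  have huniq : ∀ β : H.root, ∀ k l, B.w k (coroot β.1) = 1 → B.w l (coroot β.1) = 1 → k = l := by
    intro β k l hk hl
    obtain ⟨a, ha⟩ := Finset.card_eq_one.1 (hone β)
    have h1 : k ∈ ({a} : Finset I) := by rw [← ha]; simp [hk]
    have h2 : l ∈ ({a} : Finset I) := by rw [← ha]; simp [hl]
    rw [Finset.mem_singleton] at h1 h2
    rw [h1, h2]
  -- the negative root
  have hneg : -α.1 ∈ H.root := by
    have := H.isNonZero_coe_root α
    simp only [LieSubalgebra.root, Finset.mem_filter, Finset.mem_univ, true_and]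
    exact this.neg
  have huniq' : ∀ k l, B.w k (coroot α.1) = -1 → B.w l (coroot α.1) = -1 → k = l := by
    intro k l hk hl
    apply huniq ⟨-α.1, hneg⟩
    · rw [coroot_neg, map_neg, hk, neg_neg]
    · rw [coroot_neg, map_neg, hl, neg_neg]
  have hfi : ⁅f, B.v i⁆ ≠ 0 := by
    intro h
    rcases TR.B45.cases B hsq i ht he hf with ⟨h1, -, -⟩ | h1 | ⟨-, -, h3⟩
    · rw [hi] at h1
      norm_num at h1
    · rw [hi] at h1
      exact one_ne_zero h1
    · rw [h, lie_zero] at h3
      exact B.v.ne_zero i h3.symm
  -- `f v_i` is a multiple of `v_j`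
  have hcoord : ∀ k, k ≠ j → B.v.repr ⁅f, B.v i⁆ k = 0 := by
    intro k hk
    by_contra hne
    apply hk
    apply huniq' k j _ hj
    have h1 := TR.B45.coord_neg B hf hne
    rw [h1, LinearMap.sub_apply, hi, Weight.toLinear_apply,
      root_apply_coroot (H.isNonZero_coe_root α)]
    norm_num
  have hfv : ⁅f, B.v i⁆ = B.v.repr ⁅f, B.v i⁆ j • B.v j := by
    apply B.v.repr.injective
    ext l
    rw [map_smul, B.v.repr_self, Finsupp.smul_apply, Finsupp.single_apply, smul_eq_mul]
    split_ifs with h
    · rw [← h, mul_one]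
    · rw [mul_zero]
      exact hcoord l (fun h' => h h'.symm)
  have hc : B.v.repr ⁅f, B.v i⁆ j ≠ 0 := by
    intro h
    rw [h, zero_smul] at hfv
    exact hfi hfv
  refine ⟨(B.v.repr ⁅f, B.v i⁆ j)⁻¹ • f, ?_, ?_⟩
  · rw [smul_lie]
    nth_rewrite 2 [hfv]
    rw [smul_smul, inv_mul_cancel₀ hc, one_smul]
  · intro k hk
    have h1 : ⁅f, B.v k⁆ = 0 := f_zero B hsq ht hf (fun h => hk (huniq α k i h hi))
    rw [smul_lie, h1, smul_zero]

end module

section ops
variable {L : LieSubalgebra K (Module.End K V)} [IsKilling K L] {H : LieSubalgebra K L}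
  [H.IsCartanSubalgebra] {I : Type*} [Fintype I] (B : WB (V := V) H I)

open Classical in
/-- LB -/
theorem sl_of_one (hinj : Function.Injective B.w)
    (hsq : ∀ (α : H.root) (x : L), x ∈ rootSpace H α.1 →
      toEnd K L V x * toEnd K L V x = 0)
    (hsep : ∀ i j, i ≠ j → ∃ α : H.root, B.w i (coroot α.1) = 1 ∧ B.w j (coroot α.1) = -1)
    (hone : ∀ α : H.root,
      (Finset.univ.filter (fun i => B.w i (coroot α.1) = 1)).card = 1)
    {z : Module.End K V} (hz : LinearMap.trace K V z = 0) : z ∈ L := by
  -- matrix units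
  have hunit : ∀ i j, i ≠ j → Matrix.toLin B.v B.v (Matrix.single j i (1 : K)) ∈ L := by
    intro i j hij
    obtain ⟨α, hi, hj⟩ := hsep i j hij
    obtain ⟨x, hx, hx'⟩ := exists_unit B hsq hone hi hj
    have h1 : Matrix.toLin B.v B.v (Matrix.single j i (1 : K)) = (x : Module.End K V) := by
      apply B.v.ext
      intro k
      have h2 : (x : Module.End K V) (B.v k) = ⁅x, B.v k⁆ := rfl
      rw [Matrix.toLin_self, h2]
      by_cases hk : k = i
      · rw [hk, hx, Finset.sum_eq_single j]
        · simp
        · intro l _ hl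
          rw [Matrix.single_apply, if_neg (fun h => hl h.1.symm), zero_smul]
        · intro h
          exact absurd (Finset.mem_univ j) h
      · rw [hx' k hk]
        apply Finset.sum_eq_zero
        intro l _
        rw [Matrix.single_apply, if_neg (fun h => hk h.2.symm), zero_smul]
    rw [h1]
    exact x.2
  -- differences of diagonal units
  have hdiag : ∀ i j, Matrix.toLin B.v B.v (Matrix.single i i (1 : K) - Matrix.single j j 1) ∈ L := by
    intro i j
    by_cases hij : i = j
    · rw [hij, sub_self, map_zero]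
      exact L.zero_mem
    · have h1 := L.lie_mem (hunit j i (Ne.symm hij)) (hunit i j hij)
      rw [LieRing.of_associative_ring_bracket] at h1
      have h2 : Matrix.toLin B.v B.v (Matrix.single i j (1 : K)) *
          Matrix.toLin B.v B.v (Matrix.single j i (1 : K)) =
          Matrix.toLin B.v B.v (Matrix.single i i (1 : K)) := by
        have h3 := Matrix.toLin_mul B.v B.v B.v (Matrix.single i j (1 : K))
          (Matrix.single j i (1 : K))
        rw [Matrix.single_mul_single_same, mul_one] at h3
        rw [h3]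
        rfl
      have h3 : Matrix.toLin B.v B.v (Matrix.single j i (1 : K)) *
          Matrix.toLin B.v B.v (Matrix.single i j (1 : K)) =
          Matrix.toLin B.v B.v (Matrix.single j j (1 : K)) := by
        have h3 := Matrix.toLin_mul B.v B.v B.v (Matrix.single j i (1 : K))
          (Matrix.single i j (1 : K))
        rw [Matrix.single_mul_single_same, mul_one] at h3
        rw [h3]
        rfl
      rw [h2, h3, ← map_sub] at h1
      exact h1
  rcases isEmpty_or_nonempty I with hI | ⟨⟨i₀⟩⟩
  · have h1 : z = 0 := by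
      apply B.v.ext
      intro i
      exact isEmptyElim i
    rw [h1]
    exact L.zero_mem
  set A := LinearMap.toMatrix B.v B.v z with hA
  have hzA : z = Matrix.toLin B.v B.v A := by
    rw [hA, Matrix.toLin_toMatrix]
  have htr : ∑ i, A i i = 0 := by
    rw [← hz, LinearMap.trace_eq_matrix_trace K B.v z]
    rfl
  have hdec : A = ∑ i, ∑ j, (if i = j then A i i • (Matrix.single i i (1 : K) -
      Matrix.single i₀ i₀ 1) else A i j • Matrix.single i j (1 : K)) := by
    have h1 : ∀ i j, (if i = j then A i i • (Matrix.single i i (1 : K) -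
        Matrix.single i₀ i₀ 1) else A i j • Matrix.single i j (1 : K)) =
        Matrix.single i j (A i j) - (if i = j then A i i • Matrix.single i₀ i₀ (1 : K) else 0) := by
      intro i j
      split_ifs with h
      · subst h
        rw [smul_sub, Matrix.smul_single, smul_eq_mul, mul_one]
      · rw [Matrix.smul_single, smul_eq_mul, mul_one, sub_zero]
    simp only [h1, Finset.sum_sub_distrib]
    have h2 : ∑ i, ∑ j, (if i = j then A i i • Matrix.single i₀ i₀ (1 : K) else 0) = 0 := by
      have h3 : ∀ i, ∑ j, (if i = j then A i i • Matrix.single i₀ i₀ (1 : K) else 0) =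
          A i i • Matrix.single i₀ i₀ (1 : K) := by
        intro i
        rw [Finset.sum_ite_eq Finset.univ i]
        simp
      simp only [h3]
      rw [← Finset.sum_smul, htr, zero_smul]
    rw [h2, sub_zero]
    exact Matrix.matrix_eq_sum_single A
  rw [hzA, hdec, map_sum]
  have hsum : ∀ (s : Finset I) (g : I → Module.End K V), (∀ i ∈ s, g i ∈ L) → ∑ i ∈ s, g i ∈ L :=
    fun s g hg => L.toSubmodule.sum_mem hg
  apply hsum
  intro i _
  rw [map_sum]
  apply hsum
  intro j _
  split_ifs with h
  · rw [map_smul]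
    exact L.smul_mem _ (hdiag i i₀)
  · rw [map_smul]
    exact L.smul_mem _ (hunit j i (Ne.symm h))

end ops
end lie

end UN
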